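import Pool.Agent.Helper85.LC.Defs
import Pool.Agent.Helper65.LC_Block

/-!
# MP_816dee_pr (Q1): assembly, deterministic part
-/

namespace Pool.H85.LC

open Finset

/-- a graph with average degree at least `k` has more than `k` vertices -/
theorem lt_card_of_avg {V : Type*} [Fintype V] [Nonempty V] (E : Finset (Sym2 V))
    (hE : ∀ e ∈ E, ¬ e.IsDiag) (k : ℕ) (h : (k : ℝ) * Fintype.card V ≤ 2 * E.card) :
    k < Fintype.card V := by
  classical
  have h1 : E.card ≤ (Fintype.card V).choose 2 := by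
    rw [← Sym2.card_subtype_not_diag]
    rw [Fintype.card_subtype]
    apply Finset.card_le_card
    intro e he
    simp only [Finset.mem_filter, Finset.mem_univ, true_and]
    exact hE e he
  have h2 : (Fintype.card V).choose 2 * 2 = Fintype.card V * (Fintype.card V - 1) := by
    rw [Nat.choose_two_right]
    exact Nat.div_mul_cancel (Nat.even_mul_pred_self _).two_dvd
  have hpos : 0 < Fintype.card V := Fintype.card_pos
  have h3 : k * Fintype.card V ≤ 2 * E.card := by exact_mod_cast h
  have h4 : k * Fintype.card V ≤ Fintype.card V * (Fintype.card V - 1) := by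
    calc k * Fintype.card V ≤ 2 * E.card := h3
      _ ≤ (Fintype.card V).choose 2 * 2 := by omega
      _ = _ := h2
  have h5 : k ≤ Fintype.card V - 1 := by
    have : Fintype.card V * k ≤ Fintype.card V * (Fintype.card V - 1) := by
      rw [mul_comm]; exact h4
    exact Nat.le_of_mul_le_mul_left this hpos
  omega

/-- in a forest, two distinct vertices are not ancestors of each other -/
theorem IsForest.antisymm {V : Type*} {π : V → List V} (h : IsForest π) {x y : V}
    (h1 : x ∈ π y) (h2 : y ∈ π x) : x = y := by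
  have a := h.closed y x h1
  have b := h.closed x y h2
  have e : π x = π y := by
    apply List.IsPrefix.eq_of_length a
    exact le_antisymm a.length_le b.length_le
  have hx := h.last x
  have hy := h.last y
  rw [e, hy] at hx
  exact (Option.some.inj hx).symm

open Classical in
/-- the long vertical members of `E` -/
noncomputable def longE {V : Type*} (π : V → List V) (E : Finset (Sym2 V)) (k : ℕ) :
    Finset (Sym2 V) :=
  E.filter fun e => ∃ x y, e = s(x, y) ∧ x ∈ π y ∧ (π x).length + k ≤ (π y).length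

open Classical in
/-- the short vertical pairs of `E` -/
noncomputable def shortP {V : Type*} [Fintype V] (π : V → List V) (E : Finset (Sym2 V)) (k : ℕ) :
    Finset (V × V) :=
  Finset.univ.filter fun e => s(e.1, e.2) ∈ E ∧ e.1 ∈ π e.2 ∧ (π e.2).length < (π e.1).length + k

open Classical in
/-- the nonvertical members of `E` -/
noncomputable def nonV {V : Type*} (π : V → List V) (E : Finset (Sym2 V)) : Finset (Sym2 V) :=
  E.filter fun e => ¬ Vert π e

theorem mem_longE {V : Type*} {π : V → List V} {E : Finset (Sym2 V)} {k : ℕ} {e : Sym2 V} :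
    e ∈ longE π E k ↔ e ∈ E ∧ ∃ x y, e = s(x, y) ∧ x ∈ π y ∧ (π x).length + k ≤ (π y).length := by
  simp only [longE, Finset.mem_filter]

theorem mem_nonV {V : Type*} {π : V → List V} {E : Finset (Sym2 V)} {e : Sym2 V} :
    e ∈ nonV π E ↔ e ∈ E ∧ ¬ Vert π e := by
  simp only [nonV, Finset.mem_filter]

theorem mem_shortP {V : Type*} [Fintype V] {π : V → List V} {E : Finset (Sym2 V)} {k : ℕ}
    {e : V × V} :
    e ∈ shortP π E k ↔ s(e.1, e.2) ∈ E ∧ e.1 ∈ π e.2 ∧ (π e.2).length < (π e.1).length + k := by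
  simp only [shortP, Finset.mem_filter, Finset.mem_univ, true_and]

open Classical in
theorem card_le_parts {V : Type*} [Fintype V] (π : V → List V) (E : Finset (Sym2 V)) (k : ℕ) :
    E.card ≤ (nonV π E).card + (longE π E k).card + (shortP π E k).card := by
  have hsub : E ⊆ (nonV π E) ∪ (longE π E k) ∪
      (shortP π E k).image (fun e => s(e.1, e.2)) := by
    intro e he
    by_cases hv : Vert π e
    · obtain ⟨x, y, rfl, hxy⟩ := hv
      by_cases hl : (π x).length + k ≤ (π y).length
      · refine Finset.mem_union_left _ (Finset.mem_union_right _ ?_)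
        exact mem_longE.2 ⟨he, x, y, rfl, hxy, hl⟩
      · refine Finset.mem_union_right _ ?_
        rw [Finset.mem_image]
        refine ⟨(x, y), ?_, rfl⟩
        exact mem_shortP.2 ⟨he, hxy, by simpa using hl⟩
    · refine Finset.mem_union_left _ (Finset.mem_union_left _ ?_)
      exact mem_nonV.2 ⟨he, hv⟩
  calc E.card ≤ _ := Finset.card_le_card hsub
    _ ≤ _ := Finset.card_union_le _ _
    _ ≤ _ := Nat.add_le_add (Finset.card_union_le _ _) Finset.card_image_le

open Classical in
theorem pb_le_eb {V : Type*} [Fintype V] {π : V → List V} (hπ : IsForest π) (E : Finset (Sym2 V))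
    (hE : ∀ e ∈ E, ¬ e.IsDiag) (k : ℕ) (Λ : Finset V) : pb (shortP π E k) Λ ≤ eb E Λ Λ := by
  unfold pb eb
  apply Finset.card_le_card_of_injOn (fun e => s(e.1, e.2))
  · rintro ⟨a, d⟩ h
    rw [Finset.mem_coe, Finset.mem_filter] at h ⊢
    exact ⟨(mem_shortP.1 h.1).1, a, h.2.1, d, h.2.2, rfl⟩
  · rintro ⟨a, d⟩ h ⟨a', d'⟩ h' heq
    rw [Finset.mem_coe, Finset.mem_filter] at h h'
    have h1 := mem_shortP.1 h.1
    have h1' := mem_shortP.1 h'.1
    simp only [Sym2.eq_iff] at heq
    rcases heq with ⟨rfl, rfl⟩ | ⟨rfl, rfl⟩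
    · rfl
    · exfalso
      have := hπ.antisymm h1.2.1 h1'.2.1
      exact hE _ h1.1 (by simpa using this)

open Classical in
theorem eb_univ {V : Type*} [Fintype V] (E : Finset (Sym2 V)) :
    eb E Finset.univ Finset.univ = E.card := by
  unfold eb
  rw [Finset.filter_true_of_mem]
  intro e he
  induction e with
  | _ a b => exact ⟨a, Finset.mem_univ _, b, Finset.mem_univ _, rfl⟩

/-- extraction of a dense piece with `O(k)` vertices -/
theorem find_piece {V : Type*} [Fintype V] [Nonempty V] (ε₁ : ℝ) (hε0 : 0 < ε₁)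
    (hε1 : ε₁ ≤ 1 / 4) (M : ℕ) (hM : 8 / ε₁ ≤ M) (k : ℕ) (hk : 1 ≤ k) (π : V → List V)
    (hπ : IsForest π) (E : Finset (Sym2 V)) (hE : ∀ e ∈ E, ¬ e.IsDiag)
    (havg : (k : ℝ) * Fintype.card V ≤ 2 * E.card)
    (hN : ((nonV π E).card : ℝ) ≤ ε₁ / 16 * k * Fintype.card V)
    (hL : ((longE π E k).card : ℝ) ≤ ε₁ / 16 * k) :
    ∃ Λ : Finset V, Λ.Nonempty ∧ (Λ.card : ℝ) ≤ 3 * (M : ℝ) ^ 2 * k ∧
      (1 - ε₁) * k * Λ.card ≤ 2 * eb E Λ Λ := by
  classical
  have hM1 : (1 : ℝ) ≤ M := by
    have : (1 : ℝ) ≤ 8 / ε₁ := by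
      rw [le_div_iff₀ hε0]; linarith
    linarith
  have hM1' : 1 ≤ M := by exact_mod_cast hM1
  have hkpos : (0 : ℝ) < k := by exact_mod_cast hk
  have hn1 : (1 : ℝ) ≤ Fintype.card V := by exact_mod_cast Fintype.card_pos
  set n : ℝ := (Fintype.card V : ℝ) with hn
  by_cases hsmall : Fintype.card V < M ^ 2 * k
  · refine ⟨Finset.univ, Finset.univ_nonempty, ?_, ?_⟩
    · rw [Finset.card_univ]
      have : (Fintype.card V : ℝ) ≤ (M : ℝ) ^ 2 * k := by exact_mod_cast hsmall.le
      nlinarith [sq_nonneg (M : ℝ)]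
    · rw [Finset.card_univ, eb_univ, ← hn]
      have : (1 - ε₁) * k * n ≤ k * n := by
        have : 0 ≤ ε₁ * (k * n) := by positivity
        nlinarith
      linarith
  · push Not at hsmall
    obtain ⟨Λ, x, hx1, hx2, hxΛ, hΛ, hineq⟩ := block_extraction π hπ (shortP π E k) k M (M ^ 2 * k)
      hk hM1' (Nat.mul_pos (by positivity) hk) hsmall (by
        intro a d had
        have := mem_shortP.1 had
        exact ⟨this.2.1, this.2.2.le⟩)
    have hx1' : (M : ℝ) ^ 2 * k ≤ x := by exact_mod_cast hx1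
    have hx2' : (x : ℝ) ≤ 2 * (M ^ 2 * k) := by exact_mod_cast hx2
    have hΛ' : (Λ.card : ℝ) ≤ x + M * k := by exact_mod_cast hΛ
    have hxpos : (0 : ℝ) < x := by
      have : (0 : ℝ) < (M : ℝ) ^ 2 * k := by positivity
      linarith
    refine ⟨Λ, ?_, ?_, ?_⟩
    · rw [← Finset.card_pos]
      have : 0 < x := by exact_mod_cast hxpos
      omega
    · have : (M : ℝ) * k ≤ (M : ℝ) ^ 2 * k := by
        have : (M : ℝ) ≤ (M : ℝ) ^ 2 := by nlinarith
        exact mul_le_mul_of_nonneg_right this hkpos.le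
      linarith
    · have hpb := pb_le_eb hπ E hE k Λ
      have hcard := card_le_parts π E k
      have hcard' : (E.card : ℝ) ≤ (nonV π E).card + (longE π E k).card + (shortP π E k).card := by
        exact_mod_cast hcard
      have hineq' : (M : ℝ) * (shortP π E k).card * x ≤
          M * n * pb (shortP π E k) Λ + (shortP π E k).card * x := by
        rw [hn]; exact_mod_cast hineq
      set P : ℝ := ((shortP π E k).card : ℝ) with hP
      set B : ℝ := (pb (shortP π E k) Λ : ℝ) with hB
      have hBe : B ≤ (eb E Λ Λ : ℝ) := by rw [hB]; exact_mod_cast hpb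
      have hlong : ((longE π E k).card : ℝ) ≤ ε₁ / 16 * k * n := by
        have : ε₁ / 16 * k ≤ ε₁ / 16 * k * n := by
          have : 0 < ε₁ / 16 * k := by positivity
          nlinarith
        linarith
      have hPlow : (1 - ε₁ / 4) * (k * n / 2) ≤ P := by
        have h1 : k * n / 2 ≤ (E.card : ℝ) := by linarith
        have h2 : (1 - ε₁ / 4) * (k * n / 2) =
          k * n / 2 - ε₁ / 16 * k * n - ε₁ / 16 * k * n := by ring
        linarith
      -- (M-1) P x ≤ M n B
      have h2 : ((M : ℝ) - 1) * P * x ≤ M * n * B := by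
        have : ((M : ℝ) - 1) * P * x = M * P * x - P * x := by ring
        linarith
      have h3 : ((M : ℝ) - 1) * ((1 - ε₁ / 4) * (k * n / 2)) * x ≤ M * n * B := by
        have h4 : ((M : ℝ) - 1) * ((1 - ε₁ / 4) * (k * n / 2)) ≤ ((M : ℝ) - 1) * P :=
          mul_le_mul_of_nonneg_left hPlow (by linarith)
        calc _ ≤ ((M : ℝ) - 1) * P * x := mul_le_mul_of_nonneg_right h4 hxpos.le
          _ ≤ _ := h2
      have hnpos : 0 < n := by linarith
      have h5 : ((M : ℝ) - 1) * (1 - ε₁ / 4) * k * x ≤ M * (2 * B) := by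
        have h6 : n * (((M : ℝ) - 1) * (1 - ε₁ / 4) * k * x) ≤ n * (M * (2 * B)) := by
          have e1 : n * (((M : ℝ) - 1) * (1 - ε₁ / 4) * k * x) =
            2 * (((M : ℝ) - 1) * ((1 - ε₁ / 4) * (k * n / 2)) * x) := by ring
          have e2 : n * (M * (2 * B)) = 2 * (M * n * B) := by ring
          rw [e1, e2]
          linarith
        exact le_of_mul_le_mul_left h6 hnpos
      -- M * |Λ| ≤ (M + 1) x
      have h7 : (M : ℝ) * Λ.card ≤ (M + 1) * x := by
        have e1 : (M : ℝ) * (M * k) ≤ x := by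
          have : (M : ℝ) * (M * k) = (M : ℝ) ^ 2 * k := by ring
          linarith
        have e2 : (M : ℝ) * Λ.card ≤ M * (x + M * k) :=
          mul_le_mul_of_nonneg_left hΛ' (by linarith)
        have e3 : (M : ℝ) * (x + M * k) = M * x + M * (M * k) := by ring
        have e4 : ((M : ℝ) + 1) * x = M * x + x := by ring
        linarith
      have hMe : 8 ≤ M * ε₁ := by rwa [div_le_iff₀ hε0] at hM
      -- (1-ε₁)(M+1) ≤ (M-1)(1-ε₁/4)
      have h8 : (1 - ε₁) * (M + 1) ≤ ((M : ℝ) - 1) * (1 - ε₁ / 4) := by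
        have e1 : ((M : ℝ) - 1) * (1 - ε₁ / 4) - (1 - ε₁) * (M + 1) =
          3 / 4 * (M * ε₁) + 5 / 4 * ε₁ - 2 := by ring
        linarith
      have h9 : (M : ℝ) * ((1 - ε₁) * k * Λ.card) ≤ M * (2 * B) := by
        calc (M : ℝ) * ((1 - ε₁) * k * Λ.card) = (1 - ε₁) * k * (M * Λ.card) := by ring
          _ ≤ (1 - ε₁) * k * ((M + 1) * x) :=
            mul_le_mul_of_nonneg_left h7 (mul_nonneg (by linarith) hkpos.le)
          _ = ((1 - ε₁) * (M + 1)) * (k * x) := by ring
          _ ≤ (((M : ℝ) - 1) * (1 - ε₁ / 4)) * (k * x) :=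
            mul_le_mul_of_nonneg_right h8 (by positivity)
          _ = ((M : ℝ) - 1) * (1 - ε₁ / 4) * k * x := by ring
          _ ≤ _ := h5
      have h10 : (1 - ε₁) * k * Λ.card ≤ 2 * B := le_of_mul_le_mul_left h9 (by linarith)
      linarith

end Pool.H85.LC
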