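import Pool.Agent.Helper85.LC.Asm1
import Pool.Agent.Helper63.LC.Prob
import Pool.Agent.Helper37.LC_Nonvertical
import Pool.Agent.Helper42.LC_D1
import Pool.Agent.Helper42.LC_C
import Pool.Agent.Helper51.LC_Dense
import Pool.Agent.Helper26.LC_R2

/-!
# MP_816dee_pr (Q1): assembly, probabilistic part
-/

namespace Pool.H85.LC

open Finset

theorem one_sub_pow_le {r : ℝ} (h1 : r ≤ 1) (m : ℕ) : (1 - r) ^ m ≤ Real.exp (-(r * m)) := by
  have h : 1 - r ≤ Real.exp (-r) := by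
    have := Real.add_one_le_exp (-r)
    linarith
  calc (1 - r) ^ m ≤ Real.exp (-r) ^ m := pow_le_pow_left₀ (by linarith) h m
    _ = Real.exp (-(r * m)) := by
      rw [← Real.exp_nat_mul]; ring_nf

theorem exp_neg_le {x y : ℝ} {c : ℝ} (hc : Real.exp (-c) ≤ y) (hx : c ≤ x) :
    Real.exp (-x) ≤ y :=
  le_trans (Real.exp_le_exp.2 (by linarith)) hc

theorem main_uniform (ε η : ℝ) (hε : 0 < ε) (hη : 0 < η) :
    ∃ (A : ℝ) (k0 : ℕ), 0 < A ∧ ∀ k : ℕ, k0 ≤ k → ∀ (V : Type) [Fintype V] [Nonempty V]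
      (E : Finset (Sym2 V)), (∀ e ∈ E, ¬ e.IsDiag) → (k : ℝ) * Fintype.card V ≤ 2 * E.card →
      ∀ p : ℝ, A / k ≤ p → p ≤ 1 →
      1 - η ≤ pr E p (fun F => HasCycle (SimpleGraph.fromEdgeSet (F : Set (Sym2 V)))
        ((1 - ε) * k)) := by
  classical
  -- parameters
  obtain ⟨ε₁, hε0, hε1, hεε⟩ : ∃ ε₁ : ℝ, 0 < ε₁ ∧ ε₁ ≤ 1 / 4 ∧ 3 * ε₁ ≤ ε := by
    refine ⟨min (ε / 3) (1 / 4), by positivity, min_le_right _ _, ?_⟩
    have := min_le_left (ε / 3) (1 / 4)
    linarith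
  obtain ⟨M, hM⟩ : ∃ M : ℕ, 8 / ε₁ ≤ M := exists_nat_ge _
  have hM1 : (1 : ℝ) ≤ M := by
    have : (1 : ℝ) ≤ 8 / ε₁ := by
      rw [le_div_iff₀ hε0]; linarith
    linarith
  have hC : (1 : ℝ) ≤ 3 * (M : ℝ) ^ 2 := by nlinarith
  obtain ⟨γ, hγ, k1, hdc⟩ := dense_cycle'_of
    (fun ε h1 h2 C h3 τ h4 => cluster_path ε h1 h2 C h3 τ h4) ε₁ hε0 hε1 (3 * (M : ℝ) ^ 2) hC
  set C : ℝ := 3 * (M : ℝ) ^ 2 with hCdef
  set c : ℝ := |Real.log (η / 3)| with hc
  have hc0 : 0 ≤ c := abs_nonneg _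
  have hexpc : Real.exp (-c) ≤ η / 3 := by
    have h3 : 0 < η / 3 := by positivity
    calc Real.exp (-c) ≤ Real.exp (Real.log (η / 3)) := Real.exp_le_exp.2 (neg_abs_le _)
      _ = η / 3 := Real.exp_log h3
  set A₀ : ℝ := 32 / ε₁ + 16 / ε₁ * c + (2 * C + 1) / γ with hA0
  have hA1 : 32 / ε₁ ≤ A₀ := by
    have : 0 ≤ 16 / ε₁ * c := by positivity
    have : 0 ≤ (2 * C + 1) / γ := by positivity
    linarith
  have hA2 : 16 / ε₁ * c ≤ A₀ := by
    have : 0 ≤ 32 / ε₁ := by positivity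
    have : 0 ≤ (2 * C + 1) / γ := by positivity
    linarith
  have hA3 : (2 * C + 1) / γ ≤ A₀ := by
    have : 0 ≤ 32 / ε₁ := by positivity
    have : 0 ≤ 16 / ε₁ * c := by positivity
    linarith
  have hA0pos : 0 < A₀ := lt_of_lt_of_le (by positivity) hA1
  obtain ⟨k2, hk2⟩ : ∃ k2 : ℕ, c ≤ k2 := exists_nat_ge _
  refine ⟨3 * A₀, k1 + k2 + 2, by positivity, ?_⟩
  intro k hk V _ _ E hE havg p hp hp1
  have hk2' : 2 ≤ k := by omega
  have hkpos : (0 : ℝ) < k := by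
    have : 0 < k := by omega
    exact_mod_cast this
  have hck : c ≤ k := by
    have : (k2 : ℝ) ≤ k := by exact_mod_cast (by omega : k2 ≤ k)
    linarith
  set n : ℝ := (Fintype.card V : ℝ) with hn
  have hkn : (k : ℝ) ≤ n := by
    have := lt_card_of_avg E hE k havg
    rw [hn]; exact_mod_cast this.le
  have hnpos : 0 < n := by linarith
  set r : ℝ := A₀ / k with hr
  have hr0 : 0 < r := by positivity
  have h3r : 3 * r ≤ p := by
    have : 3 * r = 3 * A₀ / k := by rw [hr]; ring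
    linarith
  have hr1 : r ≤ 1 := by linarith
  have hrk : r * k = A₀ := by rw [hr]; field_simp
  -- the number of nonvertical edges
  obtain ⟨dfs, hdfs⟩ := exists_dfs V
  set m : ℕ := ⌈2 * n / r⌉₊ with hm
  have hgood : 1 - η / 3 ≤ pr E (2 * r - r ^ 2) (fun F => ¬ ∃ N ⊆ E, m ≤ N.card ∧
      ∀ e ∈ N, ¬ Vert (dfs (SimpleGraph.fromEdgeSet (F : Set (Sym2 V)))) e) := by
    have h1 := few_nonvertical hdfs E hE hr0.le hr1 m
    have h2 := pr_compl E (2 * r - r ^ 2) (fun F => ∃ N ⊆ E, m ≤ N.card ∧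
      ∀ e ∈ N, ¬ Vert (dfs (SimpleGraph.fromEdgeSet (F : Set (Sym2 V)))) e)
    have h3 : (2 : ℝ) ^ Fintype.card V * (1 - r) ^ m ≤ η / 3 := by
      have h4 : (1 - r) ^ m ≤ Real.exp (-(2 * n)) := by
        refine le_trans (one_sub_pow_le hr1 m) (Real.exp_le_exp.2 ?_)
        have h5 : 2 * n / r ≤ m := Nat.le_ceil _
        rw [div_le_iff₀ hr0] at h5
        linarith
      have h6 : (2 : ℝ) ^ Fintype.card V ≤ Real.exp n := by
        have h7 : (2 : ℝ) ≤ Real.exp 1 := by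
          have := Real.add_one_le_exp (1 : ℝ)
          linarith
        calc (2 : ℝ) ^ Fintype.card V ≤ Real.exp 1 ^ Fintype.card V :=
              pow_le_pow_left₀ (by norm_num) h7 _
          _ = Real.exp n := by rw [← Real.exp_nat_mul, hn, mul_one]
      calc (2 : ℝ) ^ Fintype.card V * (1 - r) ^ m ≤ Real.exp n * Real.exp (-(2 * n)) :=
            mul_le_mul h6 h4 (pow_nonneg (by linarith) _) (Real.exp_pos _).le
        _ = Real.exp (-n) := by rw [← Real.exp_add]; ring_nf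
        _ ≤ η / 3 := exp_neg_le hexpc (by linarith)
    linarith
  have hmono : ∀ F F' : Finset (Sym2 V), F ⊆ F' → F' ⊆ E →
      HasCycle (SimpleGraph.fromEdgeSet (F : Set (Sym2 V))) ((1 - ε) * k) →
      HasCycle (SimpleGraph.fromEdgeSet (F' : Set (Sym2 V))) ((1 - ε) * k) := by
    intro F F' hFF _ h
    exact h.mono (SimpleGraph.fromEdgeSet_mono (by exact_mod_cast hFF)) le_rfl
  have key : 1 - η / 3 - η / 3 ≤ pr E p (fun F => HasCycle (SimpleGraph.fromEdgeSet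
      (F : Set (Sym2 V))) ((1 - ε) * k)) := by
    refine pr_two_rounds E (q₁ := 2 * r - r ^ 2) (q₂ := r) ?_ hr0.le ?_ hp1 (by positivity)
      (by positivity) hmono hgood ?_
    · nlinarith
    · nlinarith [sq_nonneg r]
    intro F₁ hF₁ hgoodF
    set Γ₁ := SimpleGraph.fromEdgeSet (F₁ : Set (Sym2 V)) with hΓ₁
    have hπ : IsForest (dfs Γ₁) := hdfs.forest Γ₁
    have hle : ∀ F₂ : Finset (Sym2 V),
        Γ₁ ≤ SimpleGraph.fromEdgeSet ((F₁ ∪ F₂ : Finset (Sym2 V)) : Set (Sym2 V)) := by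
      intro F₂
      exact SimpleGraph.fromEdgeSet_mono (by
        rw [Finset.coe_union]; exact Set.subset_union_left)
    have hle2 : ∀ F₂ : Finset (Sym2 V), SimpleGraph.fromEdgeSet (F₂ : Set (Sym2 V)) ≤
        SimpleGraph.fromEdgeSet ((F₁ ∪ F₂ : Finset (Sym2 V)) : Set (Sym2 V)) := by
      intro F₂
      exact SimpleGraph.fromEdgeSet_mono (by
        rw [Finset.coe_union]; exact Set.subset_union_right)
    have hN : ((nonV (dfs Γ₁) E).card : ℝ) ≤ ε₁ / 16 * k * n := by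
      have h1 : (nonV (dfs Γ₁) E).card < m := by
        by_contra hcon
        push Not at hcon
        exact hgoodF ⟨nonV (dfs Γ₁) E, fun e he => (mem_nonV.1 he).1, hcon,
          fun e he => (mem_nonV.1 he).2⟩
      have h2 : ((nonV (dfs Γ₁) E).card : ℝ) < 2 * n / r := Nat.lt_ceil.1 h1
      have h3 : 2 * n / r ≤ ε₁ / 16 * k * n := by
        rw [div_le_iff₀ hr0]
        have h4 : ε₁ / 16 * k * n * r = (ε₁ / 16 * A₀) * n := by rw [← hrk]; ring
        rw [h4]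
        have h5 : 2 ≤ ε₁ / 16 * A₀ := by
          rw [div_le_iff₀ hε0] at hA1
          linarith
        exact mul_le_mul_of_nonneg_right h5 hnpos.le
      linarith
    by_cases hlong : ε₁ / 16 * k ≤ ((longE (dfs Γ₁) E k).card : ℝ)
    · -- a long vertical edge is hit
      have h1 := pr_disjoint E (longE (dfs Γ₁) E k) (fun e he => (mem_longE.1 he).1) r
      have h2 := pr_compl E r (fun F => Disjoint (longE (dfs Γ₁) E k) F)
      have h3 : (1 - r) ^ (longE (dfs Γ₁) E k).card ≤ η / 3 := by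
        refine le_trans (one_sub_pow_le hr1 _) (exp_neg_le hexpc ?_)
        have h4 : r * (ε₁ / 16 * k) ≤ r * ((longE (dfs Γ₁) E k).card : ℝ) :=
          mul_le_mul_of_nonneg_left hlong hr0.le
        have h5 : r * (ε₁ / 16 * k) = ε₁ / 16 * A₀ := by rw [← hrk]; ring
        have h6 : c ≤ ε₁ / 16 * A₀ := by
          have h7 : ε₁ / 16 * (16 / ε₁ * c) ≤ ε₁ / 16 * A₀ :=
            mul_le_mul_of_nonneg_left hA2 (by positivity)
          have h8 : ε₁ / 16 * (16 / ε₁ * c) = c := by field_simp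
          linarith
        linarith
      have h4 : pr E r (fun F => ¬ Disjoint (longE (dfs Γ₁) E k) F) ≤ pr E r (fun F₂ =>
          HasCycle (SimpleGraph.fromEdgeSet ((F₁ ∪ F₂ : Finset (Sym2 V)) : Set (Sym2 V)))
            ((1 - ε) * k)) := by
        refine pr_mono E hr0.le hr1 ?_
        intro F₂ hF₂ hdis
        rw [Finset.not_disjoint_iff] at hdis
        obtain ⟨e, he1, he2⟩ := hdis
        obtain ⟨heE, x, y, rfl, hxy, hlen⟩ := mem_longE.1 he1
        refine hasCycle_of_vertical hπ (fun z => (hdfs.path Γ₁ z).2.1) (hle F₂) hxy ?_ hk2' hlen ?_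
        · rw [SimpleGraph.fromEdgeSet_adj]
          refine ⟨?_, ?_⟩
          · rw [Finset.coe_union]; right; exact_mod_cast he2
          · intro hxy'
            exact hE _ heE (by simpa using hxy')
        · nlinarith
      linarith
    · push Not at hlong
      obtain ⟨Λ, hΛne, hΛcard, hΛe⟩ := find_piece ε₁ hε0 hε1 M hM k (by omega) (dfs Γ₁) hπ E hE
        havg hN hlong.le
      have hs := seeing E Λ hr0.le hr1 ⌈γ * (k : ℝ) ^ 2⌉₊
      have h3 : (4 : ℝ) ^ Λ.card * (1 - r) ^ ⌈γ * (k : ℝ) ^ 2⌉₊ ≤ η / 3 := by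
        have h4 : (1 - r) ^ ⌈γ * (k : ℝ) ^ 2⌉₊ ≤ Real.exp (-(A₀ * γ * k)) := by
          refine le_trans (one_sub_pow_le hr1 _) (Real.exp_le_exp.2 ?_)
          have h5 : γ * (k : ℝ) ^ 2 ≤ (⌈γ * (k : ℝ) ^ 2⌉₊ : ℝ) := Nat.le_ceil _
          have h6 : r * (γ * (k : ℝ) ^ 2) ≤ r * (⌈γ * (k : ℝ) ^ 2⌉₊ : ℝ) :=
            mul_le_mul_of_nonneg_left h5 hr0.le
          have h7 : r * (γ * (k : ℝ) ^ 2) = A₀ * γ * k := by rw [← hrk]; ring
          linarith
        have h8 : (4 : ℝ) ^ Λ.card ≤ Real.exp (2 * (C * k)) := by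
          have h9 : (4 : ℝ) ≤ Real.exp 2 := by
            have h10 : (2 : ℝ) ≤ Real.exp 1 := by
              have := Real.add_one_le_exp (1 : ℝ)
              linarith
            have h11 : Real.exp 2 = Real.exp 1 * Real.exp 1 := by
              rw [← Real.exp_add]; norm_num
            rw [h11]; nlinarith
          calc (4 : ℝ) ^ Λ.card ≤ Real.exp 2 ^ Λ.card := pow_le_pow_left₀ (by norm_num) h9 _
            _ = Real.exp (Λ.card * 2) := by rw [← Real.exp_nat_mul]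
            _ ≤ Real.exp (2 * (C * k)) := Real.exp_le_exp.2 (by linarith)
        calc (4 : ℝ) ^ Λ.card * (1 - r) ^ ⌈γ * (k : ℝ) ^ 2⌉₊
            ≤ Real.exp (2 * (C * k)) * Real.exp (-(A₀ * γ * k)) :=
              mul_le_mul h8 h4 (pow_nonneg (by linarith) _) (Real.exp_pos _).le
          _ = Real.exp (-((A₀ * γ - 2 * C) * k)) := by rw [← Real.exp_add]; ring_nf
          _ ≤ η / 3 := by
              refine exp_neg_le hexpc ?_
              have h12 : 2 * C + 1 ≤ A₀ * γ := by rwa [div_le_iff₀ hγ] at hA3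
              nlinarith
      have h4 : pr E r (fun F => ∀ A ⊆ Λ, ∀ B ⊆ Λ, ⌈γ * (k : ℝ) ^ 2⌉₊ ≤ eb E A B →
          ∃ a ∈ A, ∃ b ∈ B, s(a, b) ∈ F) ≤ pr E r (fun F₂ =>
          HasCycle (SimpleGraph.fromEdgeSet ((F₁ ∪ F₂ : Finset (Sym2 V)) : Set (Sym2 V)))
            ((1 - ε) * k)) := by
        refine pr_mono E hr0.le hr1 ?_
        intro F₂ hF₂ hsee
        have h5 := hdc k (by omega) V E F₂ Λ hE hΛne hΛcard hΛe (by
          intro A hA B hB hAB
          exact hsee A hA B hB (Nat.ceil_le.2 hAB))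
        refine h5.mono (hle2 F₂) ?_
        have : 3 * ε₁ * k ≤ ε * k := mul_le_mul_of_nonneg_right hεε hkpos.le
        nlinarith
      linarith
  linarith

end Pool.H85.LC
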