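import Mathlib

/-!
# MP_816dee_pr (Q1): long cycles in random subgraphs of graphs of given average degree

Basic definitions shared by all modules.
-/

namespace Pool.H85.LC

open Finset

/-- The probability that the random subset `F` of `E`, which keeps each element of `E`
independently with probability `p`, satisfies `A`. -/
noncomputable def pr {α : Type*} (E : Finset α) (p : ℝ) (A : Finset α → Prop) : ℝ :=
  open Classical in
  ∑ F ∈ E.powerset with A F, p ^ F.card * (1 - p) ^ (E.card - F.card)

/-- `Γ` contains a cycle of length at least `m`. -/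
def HasCycle {V : Type*} (Γ : SimpleGraph V) (m : ℝ) : Prop :=
  ∃ (v : V) (c : Γ.Walk v v), c.IsCycle ∧ m ≤ c.length

/-- `l` is (the vertex list of) a path of `Γ` ending in `z`. -/
def IsPathTo {V : Type*} (Γ : SimpleGraph V) (z : V) (l : List V) : Prop :=
  l.Nodup ∧ l.IsChain Γ.Adj ∧ l.getLast? = some z

/-- What we need of a depth first search forest; `dfs Γ z` is the path of the forest of `Γ`
from the root to `z` (both ends included). -/
structure IsDFS {V : Type*} (dfs : SimpleGraph V → V → List V) : Prop where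
  path : ∀ Γ z, IsPathTo Γ z (dfs Γ z)
  closed : ∀ Γ z, ∀ y ∈ dfs Γ z, dfs Γ y <+: dfs Γ z
  vert : ∀ Γ u z, Γ.Adj u z → u ∈ dfs Γ z ∨ z ∈ dfs Γ u
  stable : ∀ Γ Γ' z, Γ' ≤ Γ → IsPathTo Γ' z (dfs Γ z) → dfs Γ' z = dfs Γ z

/-- the pair `e` is vertical for the forest `π` -/
def Vert {V : Type*} (π : V → List V) (e : Sym2 V) : Prop := ∃ x y, e = s(x, y) ∧ x ∈ π y

/-- A rooted forest, given by its root-to-vertex paths. -/
structure IsForest {V : Type*} (π : V → List V) : Prop where
  nodup : ∀ z, (π z).Nodup
  last : ∀ z, (π z).getLast? = some z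
  closed : ∀ z, ∀ y ∈ π z, π y <+: π z

/-- the number of edges of `E` between `A` and `B` (for disjoint `A`, `B`). -/
noncomputable def eb {V : Type*} (E : Finset (Sym2 V)) (A B : Finset V) : ℕ :=
  open Classical in
  (E.filter fun e => ∃ a ∈ A, ∃ b ∈ B, e = s(a, b)).card

/-- the number of pairs `(a, d) ∈ P` with both members in `Λ`. -/
noncomputable def pb {V : Type*} (P : Finset (V × V)) (Λ : Finset V) : ℕ :=
  open Classical in
  (P.filter fun e => e.1 ∈ Λ ∧ e.2 ∈ Λ).card

/-- the number of pairs `(a, b) ∈ A × B` adjacent in `F`. -/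
noncomputable def gb {W : Type*} (F : SimpleGraph W) (A B : Finset W) : ℕ :=
  open Classical in
  ((A ×ˢ B).filter fun e => F.Adj e.1 e.2).card

end Pool.H85.LC
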