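import Pool.Agent.Helper85.LC.Asm2

/-!
# MP_816dee_pr (Q1): sequence form
-/

namespace Pool.H85.LC

open Finset Filter Topology

/-- The probability that the random spanning subgraph `G_p`, which keeps every edge of `G`
independently with probability `p`, has the property `A`. -/
noncomputable def gp {V : Type*} [Fintype V] (G : SimpleGraph V) (p : ℝ)
    (A : SimpleGraph V → Prop) : ℝ :=
  open Classical in
  pr G.edgeFinset p (fun F => A (SimpleGraph.fromEdgeSet (F : Set (Sym2 V))))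

theorem gp_uniform (ε η : ℝ) (hε : 0 < ε) (hη : 0 < η) :
    ∃ (A : ℝ) (k0 : ℕ), 0 < A ∧ ∀ k : ℕ, k0 ≤ k → ∀ (V : Type) [Fintype V] [Nonempty V]
      (G : SimpleGraph V), (k : ℝ) ≤ 2 * G.edgeSet.ncard / Fintype.card V →
      ∀ p : ℝ, A / k ≤ p → p ≤ 1 → 1 - η ≤ gp G p (fun H => HasCycle H ((1 - ε) * k)) := by
  classical
  obtain ⟨A, k0, hA, h⟩ := main_uniform ε η hε hη
  refine ⟨A, k0, hA, ?_⟩
  intro k hk V _ _ G hG p hp hp1
  have hcard : (0 : ℝ) < Fintype.card V := by exact_mod_cast Fintype.card_pos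
  refine h k hk V G.edgeFinset ?_ ?_ p hp hp1
  · intro e he
    exact G.not_isDiag_of_mem_edgeFinset he
  · rw [le_div_iff₀ hcard, Set.ncard_eq_toFinset_card'] at hG
    exact hG

theorem pr_le_one {α : Type*} (E : Finset α) {p : ℝ} (h0 : 0 ≤ p) (h1 : p ≤ 1)
    (A : Finset α → Prop) : pr E p A ≤ 1 := by
  have h2 := pr_compl E p A
  have h3 := pr_nonneg E h0 h1 (fun F => ¬ A F)
  linarith

theorem final (V : ℕ → Type) [∀ k, Fintype (V k)] [∀ k, Nonempty (V k)]
    (G : ∀ k, SimpleGraph (V k)) (p : ℕ → ℝ) (hp : ∀ k, 0 ≤ p k ∧ p k ≤ 1)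
    (hω : Tendsto (fun k : ℕ => p k * k) atTop atTop)
    (hG : ∀ k : ℕ, (k : ℝ) ≤ 2 * (G k).edgeSet.ncard / Fintype.card (V k)) :
    ∃ ε : ℕ → ℝ, Tendsto ε atTop (𝓝 0) ∧
      Tendsto (fun k => gp (G k) (p k) (fun H => HasCycle H ((1 - ε k) * k))) atTop (𝓝 1) := by
  have hstep : ∀ j : ℕ, ∃ K : ℕ, ∀ k, K ≤ k → 1 - 1 / ((j : ℝ) + 1) ≤
      gp (G k) (p k) (fun H => HasCycle H ((1 - 1 / ((j : ℝ) + 1)) * k)) := by
    intro j
    have hj : (0 : ℝ) < 1 / ((j : ℝ) + 1) := by positivity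
    obtain ⟨A, k0, hA, h⟩ := gp_uniform _ _ hj hj
    obtain ⟨k1, hk1⟩ := (tendsto_atTop.1 hω A).exists_forall_of_atTop
    refine ⟨k0 + k1 + 1, fun k hk => h k (by omega) (V k) (G k) (hG k) (p k) ?_ (hp k).2⟩
    have hkpos : (0 : ℝ) < k := by
      have : 0 < k := by omega
      exact_mod_cast this
    rw [div_le_iff₀ hkpos]
    exact hk1 k (by omega)
  choose K hK using hstep
  let j : ℕ → ℕ := fun k => Nat.findGreatest (fun j => K j ≤ k) k
  have hj : Tendsto j atTop atTop := by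
    rw [tendsto_atTop]
    intro b
    filter_upwards [eventually_ge_atTop (K b + b)] with k hk
    exact Nat.le_findGreatest (by omega) (by omega)
  have hj2 : ∀ k, K 0 ≤ k → K (j k) ≤ k := by
    intro k hk
    exact Nat.findGreatest_spec (P := fun j => K j ≤ k) (Nat.zero_le k) hk
  have hlim : Tendsto (fun k => 1 / ((j k : ℝ) + 1)) atTop (𝓝 0) :=
    tendsto_one_div_add_atTop_nhds_zero_nat.comp hj
  refine ⟨fun k => 1 / ((j k : ℝ) + 1), hlim, ?_⟩
  have hlow : Tendsto (fun k => 1 - 1 / ((j k : ℝ) + 1)) atTop (𝓝 1) := by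
    have := (tendsto_const_nhds (x := (1 : ℝ))).sub hlim
    simpa using this
  refine tendsto_of_tendsto_of_tendsto_of_le_of_le' hlow tendsto_const_nhds ?_ ?_
  · filter_upwards [eventually_ge_atTop (K 0)] with k hk
    exact hK (j k) k (hj2 k hk)
  · exact Eventually.of_forall fun k => pr_le_one _ (hp k).1 (hp k).2 _

end Pool.H85.LC
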